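import Pool.Agent.H91.CX.Pres

/-!
# Groups presented by conjugation relations and Coxeter relations

`C` is any class of groups with the closure properties `ClosedE C` (`Pool.Agent.Y110.FJ.Stm`): it contains
`ℤ` and is closed under groups that embed, finite products, free products, overgroups of finite index,
directed colimits, and it satisfies the extension criterion (if `G` maps onto a group `Q` in `C` and the
preimages of the virtually cyclic subgroups of `Q` are in `C`, then `G` is in `C`). We suppose that `C`
contains the Coxeter groups of finite rank. All this is known for the class of the groups that satisfy the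
Full Farrell–Jones Conjecture (the Coxeter groups are in it by Bartels and Lück).

Let `Q` be a group and `V` a set of letters with ranks `rk v` in a partially ordered set. The group `CG S`
is generated by `Q` and the letters, with the relations `v ² = 1` for all letters and the relators in `S`,
which are of two kinds (`IsCox`):

* `w v w⁻¹ = z` (conjugation relations),
* `(w v w⁻¹ z) ^ m = 1` (Coxeter relations), `m` any natural number,

where `v` and `z` are letters of the same rank, and `w` is any element of the subgroup which is generated by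
`Q` and the letters of rank larger than the rank of `v` (`High`).

**Theorem.** (1) The group `Q` embeds in `CG S`, and `CG S` is in `C` if and only if `Q` is. For `Q = 1`
all these groups are in `C`.

(2) Let `Q` be a group and adjoin involutions `v ∈ V` with any set of relations of the form `[v, q] ^ m = 1`,
where `q ∈ Q`. The resulting group `CommGroup T` contains `Q`, and it is in `C` if and only if `Q` is.

(3) Let `M` and `N` be Coxeter matrices on any sets `B` and `V`. The group `MixedGroup N R` is generated by
the Coxeter group `Q` of `M` and the letters `v ∈ V`, with the Coxeter relations `(v z) ^ N v z = 1` and any set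
of mixed relations `w v w⁻¹ = z`, where `w` is in `Q`, and `v, z` are in `V`. It is in `C`. (For `B = V`,
`M = N` and all relations such that `w v w⁻¹ = z` holds in `Q` one obtains the virtual Coxeter groups; for
`B = V = {1, …, n - 1}`, the symmetric group `Q` and the right-angled `N` one obtains the virtual twin
groups.)

The cactus groups are an example for (1) with `Q = 1` and the length of an interval as rank. The theorem is
not about graph products: the letters of one rank satisfy Coxeter relations with arbitrary orders `m`.
The relations of the second kind with `v = z` say that the commutators `[v, w]` have finite order.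

Outline of the proof. First let all letters have the same rank. Let `X` be the set of the conjugates of
the letters by the elements of `Q` in the group `K` that is presented. These are involutions of `K` (possibly
trivial, possibly equal), and the orders of their products form a Coxeter matrix which is invariant under the
action of `Q` on `X`. The letters define a homomorphism of `K` to the semidirect product of the Coxeter
group of this matrix and `Q`, and this has a left inverse, so it is injective. The semidirect product is in
`C` by the theorem on extensions by Coxeter groups (`CoxeterKernels` of the library, which uses the partial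
isomorphisms of the Coxeter matrix). If there are finitely many ranks then one can argue by induction,
with the group without the letters of small rank in the role of `Q`; it is a retract. In general the group is
a directed colimit of groups with finitely many relators from `S`, which involve finitely many ranks, and
these can be replaced by natural numbers.
-/

set_option autoImplicit false

namespace Pool.Agent.Results.MP_490288_al.CoxeterPresentations

open Monoid
open Pool.Agent.Y110.FJ (ClosedE)
open Pool.Agent.H91.CX
open Pool.Agent.H91.CP (lt High)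

/-- the relators `(v q v⁻¹ q⁻¹) ^ m` for the triples `(v, q, m)` in `T`, and the squares of the
letters -/
def commRel {Q : Type} [Group Q] {V : Type} (T : Set (V × Q × ℕ)) :
    Set (Coprod Q (FreeGroup V)) :=
  {x | ∃ t ∈ T, x = (Coprod.inr (FreeGroup.of t.1) * Coprod.inl t.2.1 *
      (Coprod.inr (FreeGroup.of t.1))⁻¹ * (Coprod.inl t.2.1)⁻¹) ^ t.2.2} ∪
    {x | ∃ v : V, x = Coprod.inr (FreeGroup.of v) ^ 2}

/-- the group generated by `Q` and involutions `v ∈ V` with the relations `[v, q] ^ m = 1` for
`(v, q, m)` in `T` -/
abbrev CommGroup {Q : Type} [Group Q] {V : Type} (T : Set (V × Q × ℕ)) : Type :=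
  Coprod Q (FreeGroup V) ⧸ Subgroup.normalClosure (commRel T)

/-- the relators `(v z) ^ N v z` for all `v`, `z` and `w v w⁻¹ z⁻¹` for the triples `(w, v, z)` in
`R` -/
def mixedRel {Q : Type} [Group Q] {V : Type} (N : CoxeterMatrix V) (R : Set (Q × V × V)) :
    Set (Coprod Q (FreeGroup V)) :=
  {x | ∃ v z, x = Coprod.inr ((FreeGroup.of v * FreeGroup.of z) ^ N v z)} ∪
    {x | ∃ r ∈ R, x = Coprod.inl r.1 * Coprod.inr (FreeGroup.of r.2.1) * (Coprod.inl r.1)⁻¹ *
      (Coprod.inr (FreeGroup.of r.2.2))⁻¹}

/-- the group generated by `Q` and the letters `v ∈ V` with the Coxeter relations of `N` and the relations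
`w v w⁻¹ = z` for `(w, v, z)` in `R` -/
abbrev MixedGroup {Q : Type} [Group Q] {V : Type} (N : CoxeterMatrix V) (R : Set (Q × V × V)) :
    Type :=
  Coprod Q (FreeGroup V) ⧸ Subgroup.normalClosure (mixedRel N R)

section proofs

variable {Q : Type} [Group Q] {V : Type}

/-- the Coxeter relators for `T` -/
def tcox (T : Set (V × Q × ℕ)) : Set (Coprod Q (FreeGroup V)) :=
  {x | ∃ t ∈ T, x = (Coprod.inl t.2.1 * lt Q t.1 * (Coprod.inl t.2.1)⁻¹ * lt Q t.1) ^ t.2.2}

theorem tcox_isCox (T : Set (V × Q × ℕ)) :
    ∀ x ∈ tcox T, IsCox (fun _ : V => ()) x := by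
  rintro x ⟨t, -, rfl⟩
  exact ⟨Coprod.inl t.2.1, t.1, t.1, Subgroup.subset_closure (Or.inl ⟨_, rfl⟩), rfl,
    Or.inr ⟨t.2.2, rfl⟩⟩

/-- in a group, `[s, q] ^ m` and `(q s q⁻¹ s) ^ m` are conjugate if `s ^ 2 = 1` -/
theorem comm_iff {G : Type*} [Group G] {s q : G} (hs : s ^ 2 = 1) (m : ℕ) :
    (s * q * s⁻¹ * q⁻¹) ^ m = 1 ↔ (q * s * q⁻¹ * s) ^ m = 1 := by
  have h1 : s⁻¹ = s := inv_eq_of_mul_eq_one_left (by rw [← pow_two]; exact hs)
  have h2 : s * q * s⁻¹ * q⁻¹ = s * (q * s * q⁻¹ * s) * s⁻¹ := by
    rw [h1]
    have h3 : s * s = 1 := by rw [← pow_two]; exact hs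
    calc s * q * s * q⁻¹ = s * (q * s * q⁻¹) * 1 := by group
      _ = s * (q * s * q⁻¹) * (s * s) := by rw [h3]
      _ = s * (q * s * q⁻¹ * s) * s := by group
  rw [h2, conj_pow, mul_inv_eq_one, mul_eq_left]

theorem comm_ncl (T : Set (V × Q × ℕ)) :
    Subgroup.normalClosure (tcox T ∪ sqs Q V) = Subgroup.normalClosure (commRel T) := by
  apply le_antisymm
  · refine Subgroup.normalClosure_le_normal ?_
    rintro x (⟨t, ht, rfl⟩ | ⟨v, rfl⟩)
    · have h1 : QuotientGroup.mk' (Subgroup.normalClosure (commRel T)) (lt Q t.1) ^ 2 = 1 := by
        rw [← map_pow]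
        exact (QuotientGroup.eq_one_iff _).2
          (Subgroup.subset_normalClosure (Or.inr ⟨t.1, rfl⟩))
      have h2 : QuotientGroup.mk' (Subgroup.normalClosure (commRel T))
          ((lt Q t.1 * Coprod.inl t.2.1 * (lt Q t.1)⁻¹ * (Coprod.inl t.2.1)⁻¹) ^ t.2.2) = 1 :=
        (QuotientGroup.eq_one_iff _).2 (Subgroup.subset_normalClosure (Or.inl ⟨t, ht, rfl⟩))
      rw [map_pow, map_mul, map_mul, map_mul, map_inv, map_inv, comm_iff h1] at h2
      rw [← map_inv, ← map_mul, ← map_mul, ← map_mul, ← map_pow] at h2
      exact (QuotientGroup.eq_one_iff _).1 h2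
    · exact Subgroup.subset_normalClosure (Or.inr ⟨v, rfl⟩)
  · refine Subgroup.normalClosure_le_normal ?_
    rintro x (⟨t, ht, rfl⟩ | ⟨v, rfl⟩)
    · have h1 : QuotientGroup.mk' (Subgroup.normalClosure (tcox T ∪ sqs Q V)) (lt Q t.1) ^ 2 =
          1 := by
        rw [← map_pow]
        exact (QuotientGroup.eq_one_iff _).2
          (Subgroup.subset_normalClosure (Or.inr ⟨t.1, rfl⟩))
      have h2 : QuotientGroup.mk' (Subgroup.normalClosure (tcox T ∪ sqs Q V))
          ((Coprod.inl t.2.1 * lt Q t.1 * (Coprod.inl t.2.1)⁻¹ * lt Q t.1) ^ t.2.2) = 1 :=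
        (QuotientGroup.eq_one_iff _).2 (Subgroup.subset_normalClosure (Or.inl ⟨t, ht, rfl⟩))
      rw [map_pow, map_mul, map_mul, map_mul, map_inv, ← comm_iff h1] at h2
      rw [← map_inv, ← map_inv, ← map_mul, ← map_mul, ← map_mul, ← map_pow] at h2
      exact (QuotientGroup.eq_one_iff _).1 h2
    · exact Subgroup.subset_normalClosure (Or.inr ⟨v, rfl⟩)

/-- the mixed relators -/
def mcox (N : CoxeterMatrix V) (R : Set (Q × V × V)) : Set (Coprod Q (FreeGroup V)) :=
  mixedRel N R

theorem mixed_isCox (N : CoxeterMatrix V) (R : Set (Q × V × V)) :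
    ∀ x ∈ mixedRel N R, IsCox (fun _ : V => ()) x := by
  rintro x (⟨v, z, rfl⟩ | ⟨r, -, rfl⟩)
  · refine ⟨1, v, z, one_mem _, rfl, Or.inr ⟨N v z, ?_⟩⟩
    rw [map_pow, map_mul, inv_one, one_mul, mul_one]
    rfl
  · exact ⟨Coprod.inl r.1, r.2.1, r.2.2, Subgroup.subset_closure (Or.inl ⟨_, rfl⟩), rfl,
      Or.inl rfl⟩

theorem mixed_ncl (N : CoxeterMatrix V) (R : Set (Q × V × V)) :
    mixedRel N R ∪ sqs Q V = mixedRel N R := by
  refine Set.union_eq_self_of_subset_right ?_
  rintro x ⟨v, rfl⟩
  refine Or.inl ⟨v, v, ?_⟩
  rw [N.diagonal, pow_one, map_mul, pow_two]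
  rfl

end proofs

/-- Let `C` be a class of groups with the closure properties `ClosedE C` which contains the Coxeter groups
of finite rank.

1. Let `Q` be a group, and let `S` be a set of relators of the forms `w v w⁻¹ z⁻¹` and `(w v w⁻¹ z) ^ m`, `v`
and `z` letters of the same rank and `w` in the subgroup generated by `Q` and the letters of larger rank.
The group `CG S` generated by `Q` and the letters with the relators `S` and `v ^ 2` contains `Q`, and it is in
`C` if and only if `Q` is.
2. The group generated by `Q` and involutions `v` with any set of relations `[v, q] ^ m = 1`, `q ∈ Q`,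
contains `Q`, and it is in `C` if and only if `Q` is.
3. For Coxeter matrices `M`, `N` the group generated by the Coxeter group of `M` and letters `v` with the
Coxeter relations of `N` and any set of relations `w v w⁻¹ = z`, `w` in the Coxeter group of `M`, is in
`C`. -/
theorem result (C : ∀ (G : Type) [Group G], Prop) (hC : ClosedE C)
    (hcox : ∀ (A : Type) (_ : Finite A) (M : CoxeterMatrix A), C M.Group) :
    (∀ (Q : Type) [Group Q] (V P : Type) [PartialOrder P] (rk : V → P)
      (S : Set (Coprod Q (FreeGroup V))), (∀ x ∈ S, IsCox rk x) →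
      Function.Injective (fun q : Q => ((Coprod.inl q : Coprod Q (FreeGroup V)) : CG S)) ∧
      (C (CG S) ↔ C Q)) ∧
    (∀ (Q : Type) [Group Q] (V : Type) (T : Set (V × Q × ℕ)),
      Function.Injective (fun q : Q =>
        ((Coprod.inl q : Coprod Q (FreeGroup V)) : CommGroup T)) ∧
      (C (CommGroup T) ↔ C Q)) ∧
    (∀ (B V : Type) (M : CoxeterMatrix B) (N : CoxeterMatrix V) (R : Set (M.Group × V × V)),
      C (MixedGroup N R)) := by
  refine ⟨fun Q _ V P _ rk S hS => ⟨inQ_injective hS, cg_iff hC hcox hS⟩, fun Q _ V T => ?_,
    fun B V M N R => ?_⟩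
  · have e := comm_ncl T
    have h1 := inQ_injective (tcox_isCox T)
    have h2 := cg_iff hC hcox (tcox_isCox T)
    refine ⟨fun a b hab => h1 ?_, ?_⟩
    · have h3 := (QuotientGroup.eq (s := Subgroup.normalClosure (commRel T))).1 hab
      exact (QuotientGroup.eq (s := Subgroup.normalClosure (tcox T ∪ sqs Q V))).2 (by
        rw [e]
        exact h3)
    · refine Iff.trans ?_ h2
      exact ⟨fun h => hC.base.of_injective _ _ (QuotientGroup.quotientMulEquivOfEq e).toMonoidHom
          (QuotientGroup.quotientMulEquivOfEq e).injective h,
        fun h => hC.base.of_injective _ _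
          (QuotientGroup.quotientMulEquivOfEq e.symm).toMonoidHom
          (QuotientGroup.quotientMulEquivOfEq e.symm).injective h⟩
  · have hM : C M.Group := cox_any hC hcox M
    have e : Subgroup.normalClosure (mixedRel N R) =
        Subgroup.normalClosure (mixedRel N R ∪ sqs M.Group V) := by rw [mixed_ncl]
    exact hC.base.of_injective _ _ (QuotientGroup.quotientMulEquivOfEq e).toMonoidHom
      (QuotientGroup.quotientMulEquivOfEq e).injective
      ((cg_iff hC hcox (mixed_isCox N R)).2 hM)

end Pool.Agent.Results.MP_490288_al.CoxeterPresentations
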