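import Pool.Agent.H6.NS.Prod

/-!
# Extensions whose kernels have non-invariant series with factors which act on trees

`C` is any class of groups with the closure properties `ClosedE C` which contains the groups `F ⋊ ℤ` for
all free groups `F` and all automorphisms of `F` (`FbC`; Bestvina, Fujiwara and Wigglesworth; Brück,
Kielak and Wu), the solvable groups (Wegner) and the groups `GL_m(ℚ)` (Rüping).  All this is published
for the class of the groups which satisfy the Full Farrell–Jones Conjecture.

`Kern` is the smallest class of (abstract) groups with the following properties.

* It contains the finite direct products of free groups (of any rank), the virtually solvable groups and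
  the locally finite groups.
* It contains the groups `TreeType`: the groups which act without inversions on a tree such that the
  stabilizers of adjacent vertices are commensurable, the orders of the finite subgroups of the vertex
  stabilizers are bounded, and one vertex stabilizer is virtually polycyclic.  For instance all
  generalized Baumslag–Solitar groups with virtually polycyclic vertex groups, such as the
  Leary–Minasyan groups, with arbitrary modular homomorphism.
* It is closed under subgroups and overgroups of finite index.
* It contains `K` if it contains a normal subgroup `F` of `K` such that `K ⧸ F` is virtually solvable,
  or solvable by a group all powers of which are locally finite (`SLF`).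

**Theorem.**  Let `N` be a normal subgroup of `G` with `G ⧸ N` in `C`.  Then `G` is in `C` in each of
the following cases.

1. `N` is in `Kern`.
2. `N` is reached from the trivial subgroup by transfinitely many extensions, with factors in `Kern` and
   terms which are normal in `G`, and directed unions.
3. `N` has a representation over an algebraically closed field of characteristic zero with kernel in
   `Kern`, and only finitely many characters of the same degree.
4. `N` is isomorphic to a subgroup of a finite direct product of groups `H i` each of which has a free
   normal subgroup with virtually solvable quotient (of any ranks; any subgroup).

Nothing is assumed about the action of `G` on `N`; the terms of the series of `N` in (1) and (4) are not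
invariant under `G`, and `G` does not act on the trees.  The groups need not be finitely generated.

Examples for (4): the limit groups are free-by-(torsion-free nilpotent) by a theorem of Kochloukova, and
the finitely generated residually free groups are subgroups of finite direct products of limit groups; so
all of them are covered, and in the same way all subgroups of finite direct products of limit groups,
surface groups, virtually fibered 3-manifold groups, generalized Baumslag–Solitar groups and
amalgamated products of two copies of a solvable group.

In the library, `SubnormalKernels` (for `MP_9d1ffa_al`) treats the class which starts with free (not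
products of free), virtually solvable and locally finite groups, without actions on trees;
`SubdirectKernels` (for `MP_98022b_gt`) subgroups of products of free groups, and residually free groups
under the hypothesis that the mapping tori of limit groups are in `C`; the theorem on `TreeType`
itself is `PolycyclicTreeKernels` (for `MP_2a547c_gt`).

Outline of the proof.  Say that `K` is a kernel if all extensions of subgroups `S` of `K` by cyclic
groups are in `C`.  The groups in the first two items are kernels: a subgroup of a group of type
`TreeType` is again of this type, so `PolycyclicTreeKernels` applies to it, whatever the automorphism of
`S` is; for the others this is in the library.  If `F` is normal in `K` and a kernel, and `V` is an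
extension of `S ≤ K` by `ℤ`, the homomorphism from `S` to `K ⧸ F` and its conjugates under the powers of
the generator of `ℤ` combine to a homomorphism from `V` to the unrestricted wreath product of `K ⧸ F` and
`ℤ`, which is in `C` if `K ⧸ F` is virtually solvable; the intersection of its kernel with `S` is a
subgroup of `F`.
-/

set_option autoImplicit false

namespace Pool.Agent.Results.MP_490288_al.NonInvariantSeriesOverTrees

open Matrix
open Pool.Agent.Y110.FJ (ClosedE)
open Pool.Agent.R684.FP (FbC)
open Q181.MCL (VSol)
open Q27.TRC (chars)
open Pool.Agent.H6.NS (Kern AKern)

theorem result (C : ∀ (G : Type) [Group G], Prop) (hC : ClosedE C) (hF : FbC C)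
    (hsol : ∀ (G : Type) [Group G], Group.IsSolvable G → C G)
    (hGL : ∀ m : ℕ, C (GL (Fin m) ℚ)) (G : Type) [Group G] (N : Subgroup G) [N.Normal]
    (hQ : C (G ⧸ N)) :
    (Kern N → C G) ∧
    (AKern N → C G) ∧
    (∀ (n : ℕ) (K : Type) [Field K] [IsAlgClosed K] [CharZero K] (ρ : N →* GL (Fin n) K),
      (chars N n K).Finite → Kern ρ.ker → C G) ∧
    (∀ (k : ℕ) (H : Fin k → Type) [∀ i, Group (H i)],
      (∀ i, ∃ (F : Subgroup (H i)) (_ : F.Normal), IsFreeGroup F ∧ VSol (H i ⧸ F)) →
      ∀ j : N →* ∀ i, H i, Function.Injective j → C G) := by
  refine ⟨fun h => Pool.Agent.H6.NS.main_kern hC hF hsol hGL N h hQ,
    fun h => Pool.Agent.H6.NS.main_akern hC hF hsol hGL N h hQ,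
    fun n K _ _ _ ρ hfin hk => Pool.Agent.H6.NS.main_chars hC hF hsol hGL N ρ hfin hk hQ,
    fun k H _ h j hj => Pool.Agent.H6.NS.main_kern hC hF hsol hGL N
      (Kern.inj _ _ j hj (Pool.Agent.H6.NS.kern_prod H h)) hQ⟩

end Pool.Agent.Results.MP_490288_al.NonInvariantSeriesOverTrees
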