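import Pool.Agent.H86.FJN.Main

/-!
# `GL₂` over noncommutative graded rings and free rings

`C` is any class of groups with the closure properties `ClosedE C` which contains the groups `F ⋊ ℤ` for
all free groups `F` and all automorphisms of `F` (`FbC C`) and the solvable groups (`Sol C`). All this is
published for the class of the groups which satisfy the Full Farrell–Jones Conjecture.

`DF A`: the ring `A` has homomorphisms to finitely many division rings, and their common kernel is a
nilpotent ideal. `LDF A`: every finite subset of `A` is in a subring with this property. This class of
rings contains the commutative rings, the division rings, and is closed under finite products and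
subrings. So it contains the left Ore domains, for instance the left noetherian domains, the group rings
`K[G]` of the left-orderable amenable groups, the enveloping algebras of Lie algebras of
subexponential growth, the orders in division algebras, the quantum affine spaces; and the algebras with
a nilpotent ideal such that the quotient is a finite product of such rings.

**Theorem.**
1. Let `A = A₀ ⊕ A₁ ⊕ ...` be a graded ring, not necessarily commutative, with `LDF A`. Then `GL₂(A)` is in
   `C` if and only if `GL₂(A₀)` is. More generally, let `H` be a group with a homomorphism `ρ` to
   `GL₂(A₀)`; then `H` is in `C` if and only if the group `FPn` of the pairs `(g, h)` with `g ∈ GL₂(A)`,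
   `h ∈ H` and `g₀ = ρ(h)` is in `C`.
2. Let `A` be a ring with `LDF A`, for instance a commutative ring, and let `X` be a set. Then `GL₂(A⟨X⟩)`
   is in `C` if and only if `GL₂(A)` is, where `A⟨X⟩` is the free ring with coefficients in `A`. More
   generally, there is the statement on the fibre products for `A⟨X⟩ → A`, `X → 1`.
3. Let `R` be a domain with a degree function `d : R → ℕ`, `d (r s) = d r + d s` for nonzero `r`, `s`,
   `d (r + s) ≤ max (d r) (d s)`, such that the elements of degree zero form a division ring `k`, and let
   `ε : R → S` be any homomorphism of rings, `S ≠ 0`. Let `Gen` be the subgroup of `GL₂(R)` which is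
   generated by `GL₂(k)` and the elementary matrices. If `GL₂(S)` is in `C` then `Gen` is in `C`. More
   generally, a group `G` with homomorphisms `α` to `Gen` and `β` to a group in `C`, which are jointly
   injective, and such that `ε` maps `α(ker β)` to `1`, is in `C`.

So the Full Farrell–Jones Conjecture holds for instance for `GL₂(ℤ⟨X⟩)`, `GL₂(F⟨X⟩)`, `GL₂(D⟨X⟩)`, for
`GL₂` of the skew polynomial ring `D[x; σ]`, of the quantum affine spaces over `F` and of the enveloping
algebras of the nilpotent graded Lie algebras over `F`, where `F` is a finite field or a number field and
`D` is a division algebra of finite dimension over `F`.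

For commutative graded rings 1 is `RankTwoGradedRings` of the library, and for monoid algebras of monoids
with a length function the group `Gen` is treated in `NoncommutativeDegreeTwo`.

Outline of the proof. For 3, `Gen` acts on the tree of the cosets of `GL₂(k)` and of the triangular
matrices (two degree functions show that the graph is a tree, as in `MatricesOverFreeAlgebras`), and
`ker β` meets the stabilizers of the vertices in abelian groups of transvections, since `ε` is injective
on `k`. Such groups are in `C` by `act_tree` of the library. If `A` has homomorphisms `φᵢ` to division rings
`Dᵢ`, then 3 is applied to `GL₂(A) → GL₂(Dᵢ[t])`, `a ↦ ∑ φᵢ(aₙ) tⁿ`, with `β` the map to the product of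
`GL₂(A₀)` and the groups for the `φⱼ` with `j < i`. The congruence subgroup of a nilpotent ideal is
solvable. For free rings the weak algorithm of P. M. Cohn shows that `Gen = GL₂(Dᵢ⟨X⟩)`.
-/

set_option autoImplicit false

namespace Pool.Agent.Results.MP_490288_al.NoncommutativeGradedRings

open Pool.Agent.Y110.FJ (ClosedE)
open Pool.Agent.H694.TR (Sol)
open Pool.Agent.R684.FP (FbC)
open Pool.Agent.H86.FJN

theorem result {C : ∀ (G : Type) [Group G], Prop} (hC : ClosedE C) (hF : FbC C) (hS : Sol C) :
    GradedRings C ∧ FreeRings C ∧ DegreeRings C ∧ ManyRings :=
  ⟨gradedRings hC hF hS, freeRings hC hF hS, degreeRings hC hF hS, manyRings⟩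

end Pool.Agent.Results.MP_490288_al.NoncommutativeGradedRings
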