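import Pool.Agent.H4.OS.Sub

/-!
# Torsion-free Farrell-Jones groups embed in Farrell-Jones groups in which words take all values

`C` is any class of groups with the following closure properties, all of which are known for the class
of the groups that satisfy the Full Farrell-Jones Conjecture.
`ClosedE C` (`Pool.Agent.Y110.FJ.Stm`): the class contains `ℤ` and is closed under groups that embed,
finite products, free products, overgroups of finite index and colimits of directed systems, and it
satisfies the extension criterion (if `G` maps onto a group `Q` in `C` and the preimages of the virtually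
cyclic subgroups of `Q` are in `C` then `G` is in `C`).  `HasSolvable C`: solvable groups are in `C`
(Wegner).  `TreeClosed C` (`Pool.Agent.Q152.TC.Cent`): the class is closed under acylindrical cocompact
actions of finitely generated groups on trees (Knopf).

**Theorem.**  (1) Let `H` be in `C`, let `u` be an element of infinite order of `H` and let `v` be an
element of infinite order such that `⟨v⟩` is the commensurator of `⟨v⟩` in `H` and no power `≠ 1` of `v`
is conjugate to a power of `u`.  Then the HNN extension of `H` which makes `u` and `v` conjugate is in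
`C`.  (There is no condition on the element `u`; powers of `u` may be conjugate to different powers.)

(2) Every torsion-free group `G` in `C` embeds in a torsion-free group `S` in `C` with the following
property: if a word `r` in one variable with coefficients in `S` (an element of `S * ⟨y⟩`) is not
conjugate to an element of `S`, then it takes values in each conjugacy class of `S`, except possibly the
class of `1`.  In particular, for every nontrivial word `w` in any number of variables without
coefficients all elements of `S` are values of `w` (`S` is verbally complete, so it is divisible and each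
element is a commutator); each `b ≠ 1` is the product of two conjugates of `a` for each `a ≠ 1`; and `S`
is simple.  Moreover `S` is mitotic, hence acyclic, and countable if `G` is.

So the class of the torsion-free Farrell-Jones groups consists of the subgroups of its
simple, verbally complete members.

Outline of the proof.  (1) Let `c` be an element of infinite order which fixes an edge of the
Bass-Serre tree.  One end `x` of this edge is of the kind `u` and the other one of the kind `v`.  At a
vertex of the kind `v` the powers `≠ 1` of `c` fix only one edge.  So for all `n ≠ 0` the set of the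
fixed vertices of `c ^ n` is a star with centre `x`, the commensurator of `⟨c⟩` fixes `x` and is in `C`,
and the theorem on trees with virtually cyclic edge stabilizers (`CyclicSplittings`) applies.
(2) Let `X` be a torsion-free group in `C` and let `r` in `X * ⟨y⟩` be neither conjugate to an element
of `X` nor a proper power.  In the free product of any torsion-free overgroup of `X` and `⟨y⟩` the
cyclic group `⟨r⟩` is the stabilizer of the axis of `r`, because the stabilizers of edges are trivial,
and so one can apply (1) to `u` in `X` and `v = r`.  Such letters are adjoined for all `r` and `u` at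
once; alternate this with the adjunction of roots and with the mitosis, and iterate.
-/

set_option autoImplicit false

namespace Pool.Agent.Results.MP_490288_al.WordValues

open Pool.Agent.H4.OS Pool.Agent.H4.SE Pool.Agent.X176.FJ Pool.Agent.Y110.FJ Pool.Agent.Q152.TC
open Pool.Agent.Q91.FJ Pool.Agent.Helper270.HNN
open Monoid (Coprod)

theorem result (C : ∀ (G : Type) [Group G], Prop) (hC : ClosedE C) (hS : HasSolvable C)
    (hA : TreeClosed C) :
    (∀ (H : Type) [Group H] (u v : H) (φ : Subgroup.zpowers u ≃* Subgroup.zpowers v), C H →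
      ¬ IsOfFinOrder u → φ ⟨u, Subgroup.mem_zpowers u⟩ = ⟨v, Subgroup.mem_zpowers v⟩ →
      (∀ (g : H) (p q : ℤ), p ≠ 0 → g * v ^ p * g⁻¹ = v ^ q → g ∈ Subgroup.zpowers v) →
      (∀ (g : H) (p q : ℤ), p ≠ 0 → g * v ^ p * g⁻¹ ≠ u ^ q) →
      C (HNNExtension H (Subgroup.zpowers u) (Subgroup.zpowers v) φ)) ∧
    ∀ (G : Type) [Group G], C G → IsTF G →
      ∃ (S : Type) (_ : Group S) (f : G →* S), Function.Injective f ∧ C S ∧ IsTF S ∧
        (∀ r : Coprod S (Multiplicative ℤ),
          (¬ ∃ (g : Coprod S (Multiplicative ℤ)) (s : S), r = g * Coprod.inl s * g⁻¹) →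
          ∀ h : S, h ≠ 1 → ∃ y z : S,
            Coprod.lift (MonoidHom.id S) (zpowersHom S y) r = z * h * z⁻¹) ∧
        (∀ (n : ℕ) (w : FreeGroup (Fin n)), w ≠ 1 → ∀ g : S, ∃ x : Fin n → S,
          FreeGroup.lift x w = g) ∧
        (∀ a b : S, a ≠ 1 → b ≠ 1 → ∃ x y : S, b = (x * a * x⁻¹) * (y * a * y⁻¹)) ∧
        IsSimpleGroup S ∧ IsMitotic S ∧ (Countable G → Countable S) := by
  refine ⟨fun H _ u v φ hH hu hφ h1 h2 => one_sided hC.base hS hA hH hu φ hφ h1 h2, ?_⟩
  intro G _ hG htfG
  let Pr : ∀ (H : Type) [Group H], Prop := fun H _ =>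
    C H ∧ IsTF H ∧ (Countable G → Countable H)
  let SS : ∀ (H : Type) [Group H], Set (H × ℕ) := fun H _ => {s | s.1 ≠ 1}
  let EE : ∀ (H : Type) [Group H], Set (Pb H) := fun H _ => {s | Good s}
  let R : PG Pr → Type := fun X => RE (MG X.G) (SS (MG X.G))
  let _ : ∀ X : PG Pr, Group (R X) := fun X =>
    inferInstanceAs (Group (RE (MG X.G) (SS (MG X.G))))
  have hR : ∀ X : PG Pr, C (R X) := fun X => (all_E hC (c_MG hC X.pr.1) _).1
  have hRt : ∀ X : PG Pr, IsTF (R X) := fun X =>
    (all_E hC (c_MG hC X.pr.1) _).2.2 (tf_MG X.pr.2.1) (fun _ h => h)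
  have hP : ∀ X : PG Pr, C (QE (R X) (EE (R X))) ∧ Function.Injective (xQ (EE (R X))) ∧
      IsTF (QE (R X) (EE (R X))) := fun X =>
    all_Q hC.base hS hA (hR X) (hRt X) (EE (R X)) fun s hs => hs
  let nx : PG Pr → PG Pr := fun X => ⟨QE (R X) (EE (R X)), inferInstance, (hP X).1,
    (hP X).2.2,
    fun h => by
      have h1 := X.pr.2.2 h
      have h2 : Countable (MG X.G) := ct_MG
      have h3 : Countable (Gm (MG X.G)) := by
        have h4 : Function.Surjective
            (Monoid.Coprod.mk (M := MG X.G) (N := FreeGroup (MG X.G × ℕ))) := Monoid.Coprod.mk_surjective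
        exact h4.countable
      have h5 : Countable (R X) :=
        (QuotientGroup.mk'_surjective (Subgroup.normalClosure (rho (MG X.G) '' SS (MG X.G)))).countable
      have h7 : Countable (FY (R X)) := by
        have h8 : Function.Surjective (fun w : Coprod (R X) (Multiplicative ℤ) =>
            Coprod.lift (HNNExtension.of : R X →* FY (R X)) (zpowersHom (FY (R X)) HNNExtension.t) w) := by
          intro x
          have h9 : x ∈ (Coprod.lift (HNNExtension.of : R X →* FY (R X))
              (zpowersHom (FY (R X)) HNNExtension.t)).range := by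
            induction x using HNNExtension.induction_on with
            | of g => exact ⟨Coprod.inl g, Coprod.lift_apply_inl _ _ _⟩
            | t => exact ⟨Coprod.inr (Multiplicative.ofAdd 1), by
                rw [Coprod.lift_apply_inr]; simp⟩
            | mul a b ha hb => exact Subgroup.mul_mem _ ha hb
            | inv a ha => exact Subgroup.inv_mem _ ha
          exact h9
        have h10 : Countable (Coprod (R X) (Multiplicative ℤ)) := by
          have h4 : Function.Surjective
              (Monoid.Coprod.mk (M := R X) (N := Multiplicative ℤ)) := Monoid.Coprod.mk_surjective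
          exact h4.countable
        exact h8.countable
      have h6 : Countable (Gq (R X)) := by
        have h4 : Function.Surjective
            (Monoid.Coprod.mk (M := R X) (N := FreeGroup (Lq (R X)))) := Monoid.Coprod.mk_surjective
        exact h4.countable
      exact (QuotientGroup.mk'_surjective (Subgroup.normalClosure _)).countable⟩
  let ιR : ∀ X : PG Pr, X.G →* R X := fun X => (xE (SS (MG X.G))).comp (iG X.G)
  have hιR : ∀ X : PG Pr, Function.Injective (ιR X) := fun X =>
    (all_E hC (c_MG hC X.pr.1) (SS (MG X.G))).2.1.comp iG_inj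
  let st : ∀ X : PG Pr, X.G →* (nx X).G := fun X => (xQ (EE (R X))).comp (ιR X)
  have hst : ∀ X : PG Pr, Function.Injective (st X) := fun X => (hP X).2.1.comp (hιR X)
  let X : PG Pr := ⟨G, inferInstance, hG, htfG, id⟩
  have hstep : ∀ (n : ℕ) (x : (sq nx X n).G),
      toLim nx st X (n + 1) (stp nx st X n x) = toLim nx st X n x := by
    intro n x
    have h1 := toLim_mp nx st X n (n + 1) (Nat.le_succ n) x
    rw [mp_succ nx st X n n le_rfl, mp_self] at h1
    exact h1
  -- the map of the group with the roots at the stage `n` to the limit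
  let T : ∀ n : ℕ, R (sq nx X n) →* LimG nx st X := fun n =>
    (toLim nx st X (n + 1)).comp (xQ (EE (R (sq nx X n))))
  have hTι : ∀ n x, T n (ιR (sq nx X n) x) = toLim nx st X n x := fun n x => hstep n x
  have hTinj : ∀ n, Function.Injective (T n) := fun n =>
    (toLim_inj nx st hst X (n + 1)).comp (hP (sq nx X n)).2.1
  -- words come from a stage
  have hpsi : ∀ {A B D : Type} [Group A] [Group B] [Group D] (f : A →* B) (g : B →* D) (x : FY A),
      psi g (psi f x) = psi (g.comp f) x := by
    intro A B D _ _ _ f g x
    have h1 : (psi g).comp (psi f) = psi (g.comp f) := by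
      apply HNNExtension.hom_ext
      · ext a
        show psi g (psi f (HNNExtension.of a)) = psi (g.comp f) (HNNExtension.of a)
        rw [psi_of, psi_of, psi_of]; rfl
      · show psi g (psi f HNNExtension.t) = psi (g.comp f) HNNExtension.t
        rw [psi_t, psi_t, psi_t]
    exact DFunLike.congr_fun h1 x
  have hup : ∀ (n m : ℕ) (h : n ≤ m) (x : FY (sq nx X n).G),
      psi (toLim nx st X m) (psi (mp nx st X n m h) x) = psi (toLim nx st X n) x := by
    intro n m h x
    rw [hpsi]
    congr 2
    ext a
    exact toLim_mp nx st X n m h a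
  have hword : ∀ r : FY (LimG nx st X), ∃ (n : ℕ) (r' : FY (sq nx X n).G),
      psi (toLim nx st X n) r' = r := by
    intro r
    induction r using HNNExtension.induction_on with
    | of g =>
      obtain ⟨n, x, rfl⟩ := toLim_surj nx st X g
      exact ⟨n, HNNExtension.of x, psi_of _ _⟩
    | t => exact ⟨0, HNNExtension.t, psi_t _⟩
    | mul a b ha hb =>
      obtain ⟨n, x, hx⟩ := ha
      obtain ⟨m, y, hy⟩ := hb
      refine ⟨max n m, psi (mp nx st X n (max n m) (le_max_left _ _)) x *
        psi (mp nx st X m (max n m) (le_max_right _ _)) y, ?_⟩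
      rw [map_mul, hup, hup, hx, hy]
    | inv a ha =>
      obtain ⟨n, x, hx⟩ := ha
      exact ⟨n, x⁻¹, by rw [map_inv, hx]⟩
  have hV : Vals (LimG nx st X) := by
    intro r hr h hh
    obtain ⟨n1, r1, hr1⟩ := hword r
    obtain ⟨n2, h2, hh2⟩ := toLim_surj nx st X h
    obtain ⟨n, r0, h0, hr0, hh0⟩ : ∃ (n : ℕ) (r0 : FY (sq nx X n).G) (h0 : (sq nx X n).G),
        psi (toLim nx st X n) r0 = r ∧ toLim nx st X n h0 = h :=
      ⟨max n1 n2, psi (mp nx st X n1 _ (le_max_left _ _)) r1,
        mp nx st X n2 _ (le_max_right _ _) h2, by rw [hup, hr1], by rw [toLim_mp, hh2]⟩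
    let Y : PG Pr := sq nx X n
    let r' : FY (R Y) := psi (ιR Y) r0
    have hr' : psi (T n) r' = r := by
      show psi (T n) (psi (ιR Y) r0) = r
      rw [hpsi, ← hr0]
      congr 2
      ext a
      exact hTι n a
    have hhyp : ∀ v : Vert (pf (R Y)), r' • v ≠ v := by
      intro v hv
      obtain ⟨γ, x, h3⟩ := fix_iff.1 ⟨v, hv⟩
      apply hr
      refine ⟨psi (T n) γ, T n x, ?_⟩
      rw [← hr', h3, map_mul, map_mul, map_inv, psi_of]
    obtain ⟨L, l, hax⟩ := (treeAct (φ := pf (R Y))).exists_axis hhyp
    obtain ⟨ρ, k, hk, hρ, hnp, hρv⟩ := exists_root (treeAct (φ := pf (R Y))) l r' L hax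
    have h0ne : h0 ≠ 1 := by
      rintro rfl
      apply hh
      rw [← hh0, map_one]
    have h1 : (iG Y.G h0, k - 1) ∈ SS (MG Y.G) := by
      intro h
      exact h0ne (iG_inj (h.trans (map_one _).symm))
    have h3 := rel_E h1
    have h4 : k - 1 + 1 = k := by omega
    let h' : R Y := yE (SS (MG Y.G)) (iG Y.G h0, k - 1)
    have h5 : h' ^ k = ιR Y h0 := by
      have h6 : h' ^ (k - 1 + 1) = ιR Y h0 := h3
      rwa [h4] at h6
    have h'ne : h' ≠ 1 := by
      intro h6
      rw [h6, one_pow] at h5
      exact h0ne (hιR Y (h5.symm.trans (map_one _).symm))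
    have hgood : ((ρ, h') : Pb (R Y)) ∈ EE (R Y) := ⟨hnp, hρv, h'ne⟩
    have hrel := rel_Q hgood
    let τ : QE (R Y) (EE (R Y)) →* LimG nx st X := toLim nx st X (n + 1)
    let y0 : QE (R Y) (EE (R Y)) := lQ (EE (R Y)) ((ρ, h'), false)
    let z0 : QE (R Y) (EE (R Y)) := lQ (EE (R Y)) ((ρ, h'), true)
    have h6 : z0 * xQ (EE (R Y)) (ιR Y h0) * z0⁻¹ = ev (xQ (EE (R Y))) y0 r' := by
      rw [hρ, map_pow, ← h5, map_pow]
      have h7 : z0 * xQ (EE (R Y)) h' * z0⁻¹ = ev (xQ (EE (R Y))) y0 ρ := hrel
      rw [← h7, conj_pow]
    refine ⟨τ y0, τ z0, ?_⟩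
    have h7 := congrArg τ h6
    rw [map_mul, map_mul, map_inv] at h7
    have e1 : τ (xQ (EE (R Y)) (ιR Y h0)) = h := (hTι n h0).trans hh0
    rw [e1] at h7
    rw [h7]
    have e2 := DFunLike.congr_fun (ev_comp (xQ (EE (R Y))) y0 τ) r'
    rw [MonoidHom.comp_apply] at e2
    rw [e2, ← hr']
    have e3 : (ev (MonoidHom.id (LimG nx st X)) (τ y0)).comp (psi (T n)) =
        ev (τ.comp (xQ (EE (R Y)))) (τ y0) := by
      apply HNNExtension.hom_ext
      · refine MonoidHom.ext fun a => ?_
        rw [MonoidHom.comp_apply, MonoidHom.comp_apply, MonoidHom.comp_apply, psi_of, ev_of, ev_of]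
        rfl
      · rw [MonoidHom.comp_apply, psi_t, ev_t, ev_t]
    exact DFunLike.congr_fun e3 r'
  -- the limit is not trivial
  have hnt : Nontrivial (LimG nx st X) := by
    have h1 : lQ (EE (R X)) ((1, 1), false) ≠ 1 := lQ_ne_one _ (fun h => h.2.2 rfl)
    refine ⟨toLim nx st X 1 (lQ (EE (R X)) ((1, 1), false) : QE (R X) (EE (R X))), 1, fun h => ?_⟩
    exact h1 (toLim_inj nx st hst X 1 (h.trans (map_one _).symm))
  have htf : IsTF (LimG nx st X) := by
    intro y n hn h
    obtain ⟨m, x, rfl⟩ := toLim_surj nx st X y
    rw [← map_pow] at h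
    have h1 : x ^ n = 1 := toLim_inj nx st hst X m (h.trans (map_one _).symm)
    rw [(sq nx X m).pr.2.1 x n hn h1, map_one]
  refine ⟨LimG nx st X, inferInstance, toLim nx st X 0, toLim_inj nx st hst X 0,
    c_lim nx st hC.base (fun _ _ h => h.1) hst X, htf,
    fun r hr h hh => vals_coprod hV r hr h hh, fun n w hw g => verbal htf hV n w hw g,
    fun a b ha hb => two_conj hV a b ha hb, simple_of hV, ?_, ?_⟩
  · intro H hH
    obtain ⟨n, hn⟩ := fg_stage nx st X H hH
    let s0 : MG (sq nx X n).G := ⟨sM, sM_mem⟩
    let d0 : MG (sq nx X n).G := ⟨dM, dM_mem⟩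
    let i0 : (sq nx X n).G →* MG (sq nx X n).G := iG _
    have hms : ∀ x y, i0 x * (s0 * i0 y * s0⁻¹) = s0 * i0 y * s0⁻¹ * i0 x := fun x y =>
      Subtype.ext (mitosis_s y x)
    have hmd : ∀ x, d0 * i0 x * d0⁻¹ = i0 x * (s0 * i0 x * s0⁻¹) := fun x =>
      Subtype.ext (mitosis_d x)
    let T' : MG (sq nx X n).G →* LimG nx st X := (T n).comp (xE (SS (MG (sq nx X n).G)))
    have hT : ∀ x, toLim nx st X n x = T' (i0 x) := fun x => (hTι n x).symm
    refine ⟨T' s0, T' d0, ?_, ?_⟩
    · intro h hh h' hh'
      obtain ⟨x, rfl⟩ := hn hh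
      obtain ⟨y, rfl⟩ := hn hh'
      rw [hT, hT, ← map_inv, ← map_mul, ← map_mul, ← map_mul, ← map_mul, hms]
    · intro h hh
      obtain ⟨x, rfl⟩ := hn hh
      rw [hT, ← map_inv, ← map_inv, ← map_mul, ← map_mul, ← map_mul, ← map_mul, ← map_mul, hmd]
  · intro hct
    have h1 : ∀ n, Countable (sq nx X n).G := fun n => (sq nx X n).pr.2.2 hct
    have h2 : Function.Surjective (fun p : Σ n, (sq nx X n).G => toLim nx st X p.1 p.2) := by
      intro y
      obtain ⟨n, x, h⟩ := toLim_surj nx st X y
      exact ⟨⟨n, x⟩, h⟩
    exact h2.countable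

end Pool.Agent.Results.MP_490288_al.WordValues
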